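import Pool.Agent.H49.LAN.Stmts

/-!
Module KE2: the eigen-relation for `p = 2`, `n = 2^(2a)`.
-/

set_option autoImplicit false

open scoped BigOperators
open Finset

namespace LAN
namespace KE2

section field

variable {L : Type} [Field L]

theorem Z_zero {q : ℕ} (z : L) : Z z (0 : ZMod q) = 1 := by
  unfold Z
  simp

theorem Z_add {q : ℕ} [NeZero q] {z : L} (hz : z ^ q = 1) (x y : ZMod q) :
    Z z (x + y) = Z z x * Z z y := by
  unfold Z
  rw [← pow_add, ZMod.val_add]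
  conv_rhs => rw [← Nat.div_add_mod (x.val + y.val) q, pow_add, pow_mul, hz, one_pow, one_mul]

theorem Z_neg_mul {q : ℕ} [NeZero q] {z : L} (hz : z ^ q = 1) (x : ZMod q) :
    Z z (-x) * Z z x = 1 := by
  rw [← Z_add hz, neg_add_cancel, Z_zero]

theorem Z_ne {q : ℕ} [NeZero q] {z : L} (hz : z ^ q = 1) (x : ZMod q) : Z z x ≠ 0 := by
  intro h
  have := Z_neg_mul hz x
  rw [h, mul_zero] at this
  exact zero_ne_one this

theorem Z_neg {q : ℕ} [NeZero q] {z : L} (hz : z ^ q = 1) (x : ZMod q) :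
    Z z (-x) = (Z z x)⁻¹ := eq_inv_of_mul_eq_one_left (Z_neg_mul hz x)

theorem Z_pow {q : ℕ} [NeZero q] {z : L} (hz : z ^ q = 1) (x : ZMod q) : Z z x ^ q = 1 := by
  unfold Z
  rw [← pow_mul, mul_comm, pow_mul, hz, one_pow]

theorem Z_sum {q : ℕ} [NeZero q] {z : L} (hz : IsPrimitiveRoot z q) (hq : 1 < q) :
    ∑ x : ZMod q, Z z x = 0 := by
  have h1 := hz.pow_eq_one
  have h2 : Z z (1 : ZMod q) * ∑ x : ZMod q, Z z x = ∑ x : ZMod q, Z z x := by
    rw [Finset.mul_sum]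
    refine Fintype.sum_equiv (Equiv.addLeft 1) _ _ (fun x => ?_)
    simp only [Equiv.coe_addLeft]
    rw [Z_add h1]
  have h3 : Z z (1 : ZMod q) ≠ 1 := by
    unfold Z
    have : Fact (1 < q) := ⟨hq⟩
    rw [ZMod.val_one, pow_one]
    exact hz.ne_one hq
  have h4 : (Z z (1 : ZMod q) - 1) * ∑ x : ZMod q, Z z x = 0 := by
    rw [sub_mul, one_mul, h2, sub_self]
  exact (mul_eq_zero.mp h4).resolve_left (sub_ne_zero.mpr h3)

end field

section nf

variable {L : Type} [Field L] [NumberField L]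

theorem conj_rtu {τ : L ≃ₐ[ℚ] L} (hτ : IsConj τ) {x : L} {m : ℕ} (hm : m ≠ 0) (hx : x ^ m = 1) :
    τ x = x⁻¹ := by
  have φ : L →+* ℂ := Classical.arbitrary _
  apply φ.injective
  rw [hτ φ x, map_inv₀]
  have h1 : ‖φ x‖ = 1 := Complex.norm_eq_one_of_pow_eq_one (by rw [← map_pow, hx, map_one]) hm
  exact (Complex.inv_eq_conj h1).symm

theorem norm_of_mul {τ : L ≃ₐ[ℚ] L} (hτ : IsConj τ) {x : L} (hx : x * τ x = 1) (φ : L →+* ℂ) :
    ‖φ x‖ = 1 := by
  have h1 : φ x * starRingEnd ℂ (φ x) = 1 := by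
    rw [← hτ φ x, ← map_mul, hx, map_one]
  rw [Complex.mul_conj, Complex.normSq_eq_norm_sq] at h1
  have h2 : ‖φ x‖ ^ 2 = 1 := by exact_mod_cast h1
  have h3 : 0 ≤ ‖φ x‖ := norm_nonneg _
  nlinarith

end nf

section main

variable {W : Type} [CommGroup W] [Fintype W] [DecidableEq W]

/-- the elements `E u` -/
noncomputable def EE {L : Type} [Field L] {s : ℕ} (z : L) (f : ZMod (2 ^ s) → W → ℤ) (u : W) : L :=
  ∑ i : ZMod (2 ^ s), ((f i u : ℤ) : L) * Z z i

theorem EE_mem {L : Type} [Field L] [NumberField L] {s : ℕ} (z : L) (f : ZMod (2 ^ s) → W → ℤ)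
    (u : W) : EE z f u ∈ IntermediateField.adjoin ℚ {z} := by
  unfold EE Z
  refine sum_mem (fun i _ => mul_mem (intCast_mem _ _) (pow_mem ?_ _))
  exact IntermediateField.mem_adjoin_simple_self ℚ z

theorem EE_int {L : Type} [Field L] {s : ℕ} {z : L} (hz : IsIntegral ℤ z)
    (f : ZMod (2 ^ s) → W → ℤ) (u : W) : IsIntegral ℤ (EE z f u) := by
  unfold EE Z
  refine IsIntegral.sum _ (fun i _ => IsIntegral.mul ?_ (hz.pow _))
  exact isIntegral_algebraMap (R := ℤ) (A := L) (x := f i u)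

theorem EE_corr {L : Type} [Field L] [NumberField L] {s : ℕ} (hs : 1 ≤ s) {z : L}
    (hz : IsPrimitiveRoot z (2 ^ s)) {τ : L ≃ₐ[ℚ] L} (hτ : IsConj τ)
    {f : ZMod (2 ^ s) → W → ℤ} {n lam : ℤ} (hD : DS 2 s W f n lam) (g : W) :
    ∑ u, EE z f (u * g) * τ (EE z f u) = if g = 1 then (n : L) else 0 := by
  have hz1 := hz.pow_eq_one
  have hτZ : ∀ x : ZMod (2 ^ s), τ (Z z x) = Z z (-x) := by
    intro x
    rw [Z_neg hz1]
    exact conj_rtu hτ (by positivity) (Z_pow hz1 x)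
  have h1 : ∀ u, EE z f (u * g) * τ (EE z f u) =
      ∑ j : ZMod (2 ^ s), ∑ y : ZMod (2 ^ s),
        ((f (j + y) (u * g) * f j u : ℤ) : L) * Z z y := by
    intro u
    unfold EE
    rw [map_sum, Finset.mul_sum]
    refine Finset.sum_congr rfl (fun j _ => ?_)
    rw [Finset.sum_mul]
    symm
    refine Fintype.sum_equiv (Equiv.addLeft j) _ _ (fun y => ?_)
    simp only [Equiv.coe_addLeft]
    rw [map_mul, hτZ, map_intCast, Z_add hz1]
    push_cast
    have := Z_neg_mul hz1 j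
    calc _ = (f (j + y) (u * g) : L) * (f j u : L) * Z z y * (Z z (-j) * Z z j) := by
          rw [this]; ring
      _ = _ := by ring
  rw [Finset.sum_congr rfl (fun u _ => h1 u)]
  have h2 : ∑ u : W, ∑ j : ZMod (2 ^ s), ∑ y : ZMod (2 ^ s),
      ((f (j + y) (u * g) * f j u : ℤ) : L) * Z z y =
      ∑ y : ZMod (2 ^ s), ((∑ j, ∑ u, f (j + y) (u * g) * f j u : ℤ) : L) * Z z y := by
    rw [Finset.sum_comm]
    have h3 : ∀ j : ZMod (2 ^ s), ∑ u : W, ∑ y : ZMod (2 ^ s),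
        ((f (j + y) (u * g) * f j u : ℤ) : L) * Z z y =
        ∑ y : ZMod (2 ^ s), ∑ u : W, ((f (j + y) (u * g) * f j u : ℤ) : L) * Z z y :=
      fun j => Finset.sum_comm
    rw [Finset.sum_congr rfl (fun j _ => h3 j), Finset.sum_comm]
    refine Finset.sum_congr rfl (fun y _ => ?_)
    rw [Int.cast_sum, Finset.sum_mul]
    refine Finset.sum_congr rfl (fun j _ => ?_)
    rw [Int.cast_sum, Finset.sum_mul]
  rw [h2]
  have h4 : ∀ y : ZMod (2 ^ s), ((∑ j, ∑ u, f (j + y) (u * g) * f j u : ℤ) : L) * Z z y =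
      (lam : L) * Z z y + (if y = 0 then (if g = 1 then (n : L) else 0) else 0) := by
    intro y
    rw [hD.ac]
    by_cases hy : y = 0
    · rw [hy, Z_zero]
      by_cases hg : g = 1
      · simp [hg]
      · simp [hg]
    · simp [hy]
  rw [Finset.sum_congr rfl (fun y _ => h4 y), Finset.sum_add_distrib, ← Finset.mul_sum,
    Z_sum hz (Nat.one_lt_two_pow (by omega)), mul_zero, zero_add]
  simp

theorem ne_zero_of_rtu {L : Type} [Field L] {η : L} (h : RtU η) : η ≠ 0 := by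
  obtain ⟨M, hM, h1⟩ := h
  rintro rfl
  rw [zero_pow (by omega)] at h1
  exact zero_ne_one h1

theorem epsi_norm {L : Type} [Field L] [NumberField L] {τ : L ≃ₐ[ℚ] L} (hτ : IsConj τ)
    {E : W → L} {n : L}
    (hc : ∀ g : W, ∑ u, E (u * g) * τ (E u) = if g = 1 then n else 0) (ψ : W →* Lˣ) :
    (∑ u, E u * ((ψ u : Lˣ) : L)) * τ (∑ u, E u * ((ψ u : Lˣ) : L)) = n := by
  have hτψ : ∀ v : W, τ ((ψ v : Lˣ) : L) = (((ψ v)⁻¹ : Lˣ) : L) := by
    intro v
    rw [Units.val_inv_eq_inv_val]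
    refine conj_rtu hτ (m := Fintype.card W) Fintype.card_ne_zero ?_
    rw [← Units.val_pow_eq_pow_val, ← map_pow, pow_card_eq_one, map_one, Units.val_one]
  rw [map_sum, Finset.mul_sum]
  have h1 : ∀ v : W, (∑ u, E u * ((ψ u : Lˣ) : L)) * τ (E v * ((ψ v : Lˣ) : L)) =
      ∑ g : W, ((ψ g : Lˣ) : L) * (E (v * g) * τ (E v)) := by
    intro v
    rw [Finset.sum_mul]
    symm
    refine Fintype.sum_equiv (Equiv.mulLeft v) _ _ (fun g => ?_)
    simp only [Equiv.coe_mulLeft]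
    rw [map_mul τ, hτψ, map_mul ψ, Units.val_mul]
    have h2 : ((ψ v : Lˣ) : L) * (((ψ v)⁻¹ : Lˣ) : L) = 1 := Units.mul_inv _
    calc ((ψ g : Lˣ) : L) * (E (v * g) * τ (E v))
        = E (v * g) * ((ψ g : Lˣ) : L) * τ (E v) * (((ψ v : Lˣ) : L) * (((ψ v)⁻¹ : Lˣ) : L)) := by
          rw [h2]; ring
      _ = _ := by ring
  rw [Finset.sum_congr rfl (fun v _ => h1 v), Finset.sum_comm]
  have h3 : ∀ g : W, ∑ v, ((ψ g : Lˣ) : L) * (E (v * g) * τ (E v)) =
      if g = 1 then n else 0 := by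
    intro g
    rw [← Finset.mul_sum, hc g]
    by_cases hg : g = 1
    · simp [hg]
    · simp [hg]
  rw [Finset.sum_congr rfl (fun g _ => h3 g)]
  simp

theorem EE_sigma {L : Type} [Field L] [NumberField L] {s : ℕ} {z : L} {σ : L ≃ₐ[ℚ] L}
    {t : ZMod (2 ^ s)} (hσ : ∀ x : ZMod (2 ^ s), σ (Z z x) = Z z (t * x))
    (f : ZMod (2 ^ s) → W → ℤ) (u : W) :
    σ (EE z f u) = ∑ i : ZMod (2 ^ s), ((f i u : ℤ) : L) * Z z (t * i) := by
  unfold EE
  rw [map_sum]
  refine Finset.sum_congr rfl (fun i _ => ?_)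
  rw [map_mul, map_intCast, hσ]

theorem g_eq_one {L : Type} [Field L] [NumberField L] {s : ℕ} (hs : 1 ≤ s) {z : L}
    {σ τ : L ≃ₐ[ℚ] L} {t : (ZMod (2 ^ s))ˣ}
    (hσ : ∀ x : ZMod (2 ^ s), σ (Z z x) = Z z ((t : ZMod (2 ^ s)) * x))
    {f : ZMod (2 ^ s) → W → ℤ} {n : L} (hn : n ≠ 0)
    (hc : ∀ g : W, ∑ u, EE z f (u * g) * τ (EE z f u) = if g = 1 then n else 0)
    (hW : Nat.Coprime 2 (Fintype.card W)) {g : W} {η : L} (hη : η ≠ 0)
    (h : ∀ u, σ (EE z f u) = η * EE z f (u * g⁻¹)) : g = 1 := by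
  have hpowZ : ∀ (j : ℕ) (x : ZMod (2 ^ s)), (σ ^ j) (Z z x) = Z z (((t ^ j : (ZMod (2 ^ s))ˣ) :
      ZMod (2 ^ s)) * x) := by
    intro j
    induction j with
    | zero => intro x; simp
    | succ j ih =>
      intro x
      rw [pow_succ, AlgEquiv.mul_apply, hσ, ih]
      congr 1
      rw [pow_succ]
      push_cast
      ring
  have hpow : ∀ j : ℕ, ∃ η' : L, η' ≠ 0 ∧ ∀ u, (σ ^ j) (EE z f u) = η' * EE z f (u * (g ^ j)⁻¹) := by
    intro j
    induction j with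
    | zero => exact ⟨1, one_ne_zero, fun u => by simp⟩
    | succ j ih =>
      obtain ⟨η', hη', h1⟩ := ih
      refine ⟨(σ ^ j) η * η', mul_ne_zero ((map_ne_zero _).mpr hη) hη', fun u => ?_⟩
      have e : u * g⁻¹ * (g ^ j)⁻¹ = u * (g ^ (j + 1))⁻¹ := by
        rw [pow_succ g j, mul_inv_rev, mul_assoc]
      rw [pow_succ σ j, AlgEquiv.mul_apply, h u, map_mul, h1, e, mul_assoc]
  set M := 2 ^ (s - 1) with hM
  have htM : t ^ M = 1 := by
    have h2 := ZMod.pow_totient t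
    rw [Nat.totient_prime_pow Nat.prime_two (by omega)] at h2
    simpa using h2
  obtain ⟨η', hη', h3⟩ := hpow M
  have h4 : ∀ u, EE z f u = η' * EE z f (u * (g ^ M)⁻¹) := by
    intro u
    rw [← h3 u]
    have h5 : ∀ x : ZMod (2 ^ s), (σ ^ M) (Z z x) = Z z ((1 : ZMod (2 ^ s)) * x) := by
      intro x
      rw [hpowZ, htM, Units.val_one]
    rw [EE_sigma h5]
    unfold EE
    refine Finset.sum_congr rfl (fun i _ => ?_)
    rw [one_mul]
  have hgM : g ^ M = 1 := by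
    by_contra hne
    have h6 := hc (g ^ M)
    rw [if_neg hne] at h6
    have h7 : ∀ u, EE z f (u * g ^ M) * τ (EE z f u) = η' * (EE z f (u * 1) * τ (EE z f u)) := by
      intro u
      rw [h4 (u * g ^ M), mul_assoc u, mul_inv_cancel]
      ring
    rw [Finset.sum_congr rfl (fun u _ => h7 u), ← Finset.mul_sum, hc 1, if_pos rfl] at h6
    exact mul_ne_zero hη' hn h6
  have h8 : orderOf g ∣ M := orderOf_dvd_of_pow_eq_one hgM
  have h9 : orderOf g ∣ Fintype.card W := orderOf_dvd_card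
  have h10 : Nat.Coprime M (Fintype.card W) := Nat.Coprime.pow_left _ hW
  have h11 := Nat.dvd_gcd h8 h9
  rw [Nat.Coprime] at h10
  rw [h10, Nat.dvd_one] at h11
  exact orderOf_eq_one_iff.mp h11

end main

end KE2

theorem KE2.core (h1 : GALStmt) (h2 : GA2Stmt) (h4 : DIVStmt) (h5 : ROOStmt)
    (h6 : TRVStmt) (h7 : RU2Stmt) (h8 : RELStmt) (s a : ℕ) (W : Type) [CommGroup W] [Fintype W]
    [DecidableEq W] (f : ZMod (2 ^ s) → W → ℤ) (lam : ℤ) (hs : 1 ≤ s)
    (hW : Nat.Coprime 2 (Fintype.card W)) (hD : DS 2 s W f ((2 ^ (2 * a) : ℕ) : ℤ) lam)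
    (L : Type) [Field L] [NumberField L] (z : L) (ctx : Ctx 2 s (Fintype.card W) L z)
    (τ : L ≃ₐ[ℚ] L) (hτ : IsConj τ) :
    ∃ (c : ZMod (2 ^ s)) (b : W → ℤ), ∀ u : W,
      Per 2 s (fun i => f (i + c) u - if i = 0 then b u else 0) := by
  have hz := ctx.hz
  have hz1 := hz.pow_eq_one
  have hzint : IsIntegral ℤ z := hz.isIntegral (by positivity)
  have hτint : ∀ x : L, IsIntegral ℤ x → IsIntegral ℤ (τ x) := fun x hx =>
    hx.map (τ.restrictScalars ℤ)
  set E : W → L := KE2.EE z f with hE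
  have hcorr : ∀ g : W, ∑ u, E (u * g) * τ (E u) = if g = 1 then ((2 : L) ^ (2 * a)) else 0 := by
    intro g
    have := KE2.EE_corr hs hz hτ hD g
    push_cast at this
    exact this
  have hnne : ((2 : L) ^ (2 * a)) ≠ 0 := pow_ne_zero _ two_ne_zero
  have hEint : ∀ u, IsIntegral ℤ (E u) := fun u => KE2.EE_int hzint f u
  have hEmem : ∀ u, E u ∈ IntermediateField.adjoin ℚ {z} := fun u => KE2.EE_mem z f u
  have hψint : ∀ (ψ : W →* Lˣ) (u : W), IsIntegral ℤ ((ψ u : Lˣ) : L) := by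
    intro ψ u
    refine IsIntegral.of_pow (n := Fintype.card W) Fintype.card_pos ?_
    rw [← Units.val_pow_eq_pow_val, ← map_pow, pow_card_eq_one, map_one, Units.val_one]
    exact isIntegral_one
  -- the eigen relation
  have heig : ∀ (σ : L ≃ₐ[ℚ] L) (t : (ZMod (2 ^ s))ˣ), FixW (Fintype.card W) σ →
      (∀ x : ZMod (2 ^ s), σ (Z z x) = Z z ((t : ZMod (2 ^ s)) * x)) →
      ∃ η : L, ∀ u, σ (E u) = η * E u := by
    intro σ t hσ hσZ
    have hroo : ∀ ψ : W →* Lˣ, ∃ η : L, RtU η ∧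
        σ (∑ u, E u * ((ψ u : Lˣ) : L)) = η * ∑ u, E u * ((ψ u : Lˣ) : L) := by
      intro ψ
      refine h5 2 s (Fintype.card W) L z ctx τ hτ _ (2 * a) 1 ?_ ?_ le_rfl (Or.inl rfl) σ hσ
      · exact IsIntegral.sum _ (fun u _ => (hEint u).mul (hψint ψ u))
      · rw [KE2.epsi_norm hτ hcorr ψ]
        push_cast
        ring
    obtain ⟨g, η, _, hη, h9⟩ := h6 2 s W L z ctx τ hτ E (2 ^ (2 * a)) (Nat.one_le_two_pow)
      (Nat.Coprime.pow_left _ hW) (fun u => ⟨hEint u, hEmem u⟩)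
      (by intro g; rw [hcorr g]; push_cast; rfl) σ hσ hroo
    have hg : g = 1 := KE2.g_eq_one hs hσZ hnne hcorr hW (KE2.ne_zero_of_rtu hη) h9
    refine ⟨η, fun u => ?_⟩
    rw [h9 u, hg]
    simp
  -- the sum
  set e0 : L := ∑ u, E u with he0
  have he0n : e0 * τ e0 = (2 : L) ^ (2 * a) := by
    have := KE2.epsi_norm hτ hcorr 1
    rw [he0, map_sum]
    simpa using this
  have he0int : IsIntegral ℤ e0 := IsIntegral.sum _ (fun u _ => hEint u)
  have he0mem : e0 ∈ IntermediateField.adjoin ℚ {z} := sum_mem (fun u _ => hEmem u)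
  obtain ⟨σ1, hσ1, hσ1Z⟩ := h1 2 s (Fintype.card W) L z ctx (-1)
  have hτZ : ∀ x : ZMod (2 ^ s), τ (Z z x) = Z z (-x) := by
    intro x
    rw [KE2.Z_neg hz1]
    exact KE2.conj_rtu hτ (by positivity) (KE2.Z_pow hz1 x)
  have hσ1τ : σ1 (τ e0) = e0 := by
    rw [he0, map_sum, map_sum]
    refine Finset.sum_congr rfl (fun u _ => ?_)
    rw [hE]
    unfold KE2.EE
    rw [map_sum, map_sum]
    refine Finset.sum_congr rfl (fun i _ => ?_)
    rw [map_mul, map_mul, map_intCast, map_intCast, hτZ, hσ1Z]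
    congr 2
    simp
  have hdiv := h4 2 s (Fintype.card W) L z ctx σ1 hσ1 (τ e0) e0 1 (2 * a)
    (hτint _ he0int) he0int isIntegral_one (by
      rw [mul_comm, he0n]; push_cast; ring)
  rw [hσ1τ] at hdiv
  set x0 : L := e0 / (2 : L) ^ a with hx0
  have hx0int : IsIntegral ℤ x0 := by
    refine IsIntegral.of_pow (n := 2) (by norm_num) ?_
    have : x0 ^ 2 = e0 * e0 / ((2 : ℕ) : L) ^ (2 * a) := by
      rw [hx0, div_pow, ← pow_mul, mul_comm a 2, sq]
      push_cast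
      rfl
    rw [this]
    exact hdiv
  have hx0n : x0 * τ x0 = 1 := by
    rw [hx0, map_div₀, map_pow, map_ofNat, div_mul_div_comm, he0n, ← pow_add, two_mul]
    exact div_self (pow_ne_zero _ two_ne_zero)
  have hx0r : RtU x0 := by
    obtain ⟨M, hM, h9⟩ := NumberField.Embeddings.pow_eq_one_of_norm_eq_one L ℂ hx0int
      (fun φ => KE2.norm_of_mul hτ hx0n φ)
    exact ⟨M, hM, h9⟩
  have hx0mem : x0 ∈ IntermediateField.adjoin ℚ {z} :=
    div_mem he0mem (pow_mem (ofNat_mem _ 2) _)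
  obtain ⟨c0, hc0⟩ := h7 s L z hs hz x0 hx0mem hx0r
  have he0c : e0 = (2 : L) ^ a * Z z c0 := by
    rw [← hc0, hx0]
    field_simp
  have he0ne : e0 ≠ 0 := by
    rw [he0c]
    exact mul_ne_zero (pow_ne_zero _ two_ne_zero) (KE2.Z_ne hz1 c0)
  -- the translated function
  let f1 : ZMod (2 ^ s) → W → ℤ := fun i u => f (i + c0) u
  have hF : ∀ u, KE2.EE z f1 u = E u * Z z (-c0) := by
    intro u
    rw [hE]
    unfold KE2.EE
    rw [Finset.sum_mul]
    refine Fintype.sum_equiv (Equiv.addRight c0) _ _ (fun i => ?_)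
    simp only [Equiv.coe_addRight, f1]
    rw [mul_assoc, ← KE2.Z_add hz1]
    congr 2
    ring
  have hfix : ∀ (u : W) (σ : L ≃ₐ[ℚ] L), σ (KE2.EE z f1 u) = KE2.EE z f1 u := by
    intro u σ
    obtain ⟨t, ht⟩ := h2 2 s (Fintype.card W) L z ctx σ
    obtain ⟨σt, hσt, hσtZ⟩ := h1 2 s (Fintype.card W) L z ctx t
    have h9 : σ (KE2.EE z f1 u) = σt (KE2.EE z f1 u) := by
      rw [KE2.EE_sigma ht, KE2.EE_sigma hσtZ]
    rw [h9, hF]
    obtain ⟨η, hη⟩ := heig σt t hσt hσtZ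
    have h10 : σt e0 = η * e0 := by
      rw [he0, map_sum, Finset.mul_sum]
      exact Finset.sum_congr rfl (fun u _ => hη u)
    rw [he0c, map_mul, map_pow, map_ofNat] at h10
    have h11 : σt (Z z c0) = η * Z z c0 := by
      have h12 : (2 : L) ^ a * σt (Z z c0) = (2 : L) ^ a * (η * Z z c0) := by
        rw [h10]; ring
      exact mul_left_cancel₀ (pow_ne_zero _ two_ne_zero) h12
    have hηne : η ≠ 0 := by
      rintro rfl
      rw [zero_mul] at h11
      exact KE2.Z_ne hz1 c0 ((map_eq_zero _).mp h11)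
    rw [map_mul, hη, KE2.Z_neg hz1, map_inv₀, h11]
    have := KE2.Z_ne hz1 c0
    field_simp
  have hgal : IsGalois ℚ L := by
    have := ctx.cyc
    exact IsCyclotomicExtension.isGalois {2 ^ s * Fintype.card W} ℚ L
  have hb : ∀ u, ∃ b : ℤ, KE2.EE z f1 u = (b : L) := by
    intro u
    obtain ⟨r, hr⟩ := (IsGalois.mem_range_algebraMap_iff_fixed (F := ℚ) (E := L) _).mpr (hfix u)
    have h9 : IsIntegral ℤ (KE2.EE z f1 u) := KE2.EE_int hzint f1 u
    rw [← hr] at h9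
    have h10 : IsIntegral ℤ r :=
      (isIntegral_algebraMap_iff (algebraMap ℚ L).injective).mp h9
    obtain ⟨b, hb⟩ := IsIntegrallyClosed.isIntegral_iff.mp h10
    refine ⟨b, ?_⟩
    rw [← hr, ← hb]
    simp
  choose b hb using hb
  refine ⟨c0, b, fun u => ?_⟩
  have hrel := h8 2 s (Fintype.card W) L z ctx
    (fun x => ((f (x + c0) u - (if x = 0 then b u else 0) : ℤ) : L))
    (fun x σ _ => map_intCast σ _) (by
      have h9 : ∀ x : ZMod (2 ^ s), ((f (x + c0) u - (if x = 0 then b u else 0) : ℤ) : L) * Z z x =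
          ((f1 x u : ℤ) : L) * Z z x - (if x = 0 then (b u : L) else 0) := by
        intro x
        by_cases hx : x = 0
        · simp only [hx, if_true, f1, KE2.Z_zero]
          push_cast
          ring
        · simp only [hx, if_false, f1]
          push_cast
          ring
      rw [Finset.sum_congr rfl (fun x _ => h9 x), Finset.sum_sub_distrib]
      have h10 := hb u
      unfold KE2.EE at h10
      rw [h10]
      simp)
  intro i y hy
  have h9 := hrel i y (by exact_mod_cast hy)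
  exact_mod_cast h9

theorem KE2.cyc (N : ℕ) [NeZero N] : IsCyclotomicExtension {N} ℚ (CyclotomicField N ℚ) := by
  have e : (DivisionRing.toRatAlgebra : Algebra ℚ (CyclotomicField N ℚ)) =
      CyclotomicField.algebra N ℚ := Subsingleton.elim _ _
  have h := CyclotomicField.isCyclotomicExtension N ℚ
  rw [← e] at h
  exact h

theorem ke2 (h1 : GALStmt) (h2 : GA2Stmt) (h3 : CNJStmt) (h4 : DIVStmt) (h5 : ROOStmt)
    (h6 : TRVStmt) (h7 : RU2Stmt) (h8 : RELStmt) : KE2Stmt := by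
  intro s a W _ _ _ f lam hs hW hD
  have hwpos : 0 < Fintype.card W := Fintype.card_pos
  have hN : NeZero (2 ^ s * Fintype.card W) := ⟨by positivity⟩
  have hcyc : IsCyclotomicExtension {2 ^ s * Fintype.card W} ℚ
      (CyclotomicField (2 ^ s * Fintype.card W) ℚ) := KE2.cyc _
  have hζ := IsCyclotomicExtension.zeta_spec (2 ^ s * Fintype.card W) ℚ
    (CyclotomicField (2 ^ s * Fintype.card W) ℚ)
  obtain ⟨τ, hτ⟩ := h3 (2 ^ s * Fintype.card W) (CyclotomicField (2 ^ s * Fintype.card W) ℚ) hcyc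
  exact KE2.core h1 h2 h4 h5 h6 h7 h8 s a W f lam hs hW hD
    (CyclotomicField (2 ^ s * Fintype.card W) ℚ) _
    ⟨hs, hwpos, hW, hcyc, hζ.pow (by positivity) (by ring : _ = Fintype.card W * 2 ^ s)⟩ τ hτ

end LAN
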