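import Pool.Agent.H59.LAN.TWO

/-!
Module PSH: pushforward to the quotient by the subgroup of order two.
-/

set_option autoImplicit false

open scoped BigOperators
open Finset

namespace LAN

theorem psh : PSHStmt := by
  intro s W _ _ _ f n lam hs hD
  refine ⟨fun y g => ?_⟩
  obtain ⟨Y, hY⟩ := ZMod.castHom_surjective (pow_dvd_pow 2 (Nat.le_succ s)) y
  have hP : ∀ (j : ZMod (2 ^ (s + 1))) (u : W),
      (∑ j' ∈ univ.filter (fun j' : ZMod (2 ^ (s + 1)) =>
        (ZMod.castHom (pow_dvd_pow 2 (Nat.le_succ s)) (ZMod (2 ^ s))) j' =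
        (ZMod.castHom (pow_dvd_pow 2 (Nat.le_succ s)) (ZMod (2 ^ s))) j), f j' u) =
      f j u + f (j + TWO.hf (s + 1)) u := fun j u => TWO.fib s (fun j => f j u) j
  have h1 : ∀ i : ZMod (2 ^ s), ∑ u,
      (∑ j ∈ univ.filter (fun j : ZMod (2 ^ (s + 1)) =>
        (ZMod.castHom (pow_dvd_pow 2 (Nat.le_succ s)) (ZMod (2 ^ s))) j = i + y), f j (u * g)) *
      (∑ j ∈ univ.filter (fun j : ZMod (2 ^ (s + 1)) =>
        (ZMod.castHom (pow_dvd_pow 2 (Nat.le_succ s)) (ZMod (2 ^ s))) j = i), f j u) =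
      ∑ j ∈ univ.filter (fun j : ZMod (2 ^ (s + 1)) =>
        (ZMod.castHom (pow_dvd_pow 2 (Nat.le_succ s)) (ZMod (2 ^ s))) j = i),
        ∑ u, (f (j + Y) (u * g) + f (j + Y + TWO.hf (s + 1)) (u * g)) * f j u := by
    intro i
    simp only [Finset.mul_sum]
    rw [Finset.sum_comm]
    refine Finset.sum_congr rfl (fun j hj => Finset.sum_congr rfl (fun u _ => ?_))
    rw [Finset.mem_filter] at hj
    rw [← hj.2, ← hY, ← map_add, hP]
  rw [Finset.sum_congr rfl (fun i _ => h1 i), Finset.sum_fiberwise]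
  have h2 : ∑ j, ∑ u, (f (j + Y) (u * g) + f (j + Y + TWO.hf (s + 1)) (u * g)) * f j u =
      (∑ j, ∑ u, f (j + Y) (u * g) * f j u) +
      ∑ j, ∑ u, f (j + (Y + TWO.hf (s + 1))) (u * g) * f j u := by
    rw [← Finset.sum_add_distrib]
    refine Finset.sum_congr rfl (fun j _ => ?_)
    rw [← Finset.sum_add_distrib]
    refine Finset.sum_congr rfl (fun u _ => ?_)
    rw [add_mul, add_assoc]
  rw [h2, hD.ac, hD.ac]
  have hs1 : 1 ≤ s + 1 := by omega
  have hn := TWO.hf_ne hs1
  have ha := TWO.hf_add hs1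
  by_cases hy : y = 0
  · have h3 := TWO.ker_pi s Y (by rw [hY, hy])
    rcases h3 with h3 | h3
    · rw [h3, zero_add]
      simp only [hy, hn, true_and, false_and, if_false]
      ring
    · rw [h3, ha]
      simp only [hy, hn, true_and, false_and, if_false]
      ring
  · have h4 : Y ≠ 0 := by
      rintro rfl
      rw [map_zero] at hY
      exact hy hY.symm
    have h5 : Y + TWO.hf (s + 1) ≠ 0 := by
      intro h6
      rw [add_eq_zero_iff_eq_neg, TWO.neg_hf hs1] at h6
      rw [h6, TWO.pi_hf] at hY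
      exact hy hY.symm
    simp only [hy, h4, h5, false_and, if_false]
    ring

end LAN
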