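import Pool.Agent.H49.LAN.Stmts

/-!
Module TWO: `p = 2`, level at least two: contradiction.
-/

set_option autoImplicit false

open scoped BigOperators
open Finset

namespace LAN
namespace TWO

variable {W : Type} [CommGroup W] [Fintype W] [DecidableEq W]

theorem ds_shift {p s : ℕ} [Fact p.Prime] {f : ZMod (p ^ s) → W → ℤ} {n lam : ℤ}
    (h : DS p s W f n lam) (c : ZMod (p ^ s)) : DS p s W (fun i u => f (i + c) u) n lam := by
  refine ⟨fun y g => ?_⟩
  rw [← h.ac y g]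
  refine Fintype.sum_equiv (Equiv.addRight c) _ _ (fun i => ?_)
  simp only [Equiv.coe_addRight]
  refine Finset.sum_congr rfl (fun u _ => ?_)
  rw [show i + c + y = i + y + c by ring]

/-- the element of order two -/
def hf (S : ℕ) : ZMod (2 ^ S) := ((2 ^ (S - 1) : ℕ) : ZMod (2 ^ S))

theorem hf_add {S : ℕ} (hS : 1 ≤ S) : hf S + hf S = 0 := by
  unfold hf
  rw [← Nat.cast_add, ZMod.natCast_eq_zero_iff]
  have : 2 ^ (S - 1) + 2 ^ (S - 1) = 2 ^ S := by
    rw [← two_mul, ← pow_succ']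
    congr 1
    omega
  rw [this]

theorem hf_ne {S : ℕ} (hS : 1 ≤ S) : hf S ≠ 0 := by
  unfold hf
  rw [Ne, ZMod.natCast_eq_zero_iff]
  intro h
  have h1 := Nat.le_of_dvd (by positivity) h
  have h2 : 2 ^ (S - 1) < 2 ^ S := Nat.pow_lt_pow_right (by norm_num) (by omega)
  omega

theorem neg_hf {S : ℕ} (hS : 1 ≤ S) : -hf S = hf S := by
  rw [neg_eq_iff_add_eq_zero]
  exact hf_add hS

theorem cor_of_per {S : ℕ} {F : ZMod (2 ^ S) → W → ℤ} {n lam : ℤ} (h : DS 2 S W F n lam)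
    (y : ZMod (2 ^ S)) (hy0 : y ≠ 0) (hy : y + y = 0)
    (hp : ∀ i, i ≠ 0 → i ≠ y → ∀ u, F (i + y) u = F i u) (g : W) :
    ∑ u, (F 0 (u * g) - F y (u * g)) * (F 0 u - F y u) = if g = 1 then n else 0 := by
  have h0 := h.ac 0 g
  have h1 := h.ac y g
  have h2 : (∑ i, ∑ u, F (i + 0) (u * g) * F i u) - ∑ i, ∑ u, F (i + y) (u * g) * F i u =
      if g = 1 then n else 0 := by
    rw [h0, h1]
    simp [hy0]
  rw [← h2, ← Finset.sum_sub_distrib]
  rw [Finset.sum_eq_add (0 : ZMod (2 ^ S)) y (Ne.symm hy0)]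
  · rw [← Finset.sum_sub_distrib, ← Finset.sum_sub_distrib, ← Finset.sum_add_distrib]
    refine Finset.sum_congr rfl (fun u _ => ?_)
    rw [hy, add_zero, zero_add, add_zero]
    ring
  · intro i _ hi
    rw [← Finset.sum_sub_distrib]
    refine Finset.sum_eq_zero (fun u _ => ?_)
    rw [add_zero, hp i hi.1 hi.2, sub_self]
  · simp
  · simp

theorem per_of_ke2 (h1 : KE2Stmt) {S a : ℕ} {F : ZMod (2 ^ S) → W → ℤ} {lam : ℤ} (hS : 1 ≤ S)
    (hW : Nat.Coprime 2 (Fintype.card W)) (h : DS 2 S W F ((2 ^ (2 * a) : ℕ) : ℤ) lam) :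
    ∃ c : ZMod (2 ^ S), ∀ i, i ≠ 0 → i ≠ hf S → ∀ u, F (i + hf S + c) u = F (i + c) u := by
  obtain ⟨c, b, hb⟩ := h1 S a W F lam hS hW h
  refine ⟨c, fun i hi hi2 u => ?_⟩
  have h3 := hb u i (hf S) (by
    have := hf_add hS
    rw [← two_mul] at this
    exact_mod_cast this)
  have h4 : i + hf S ≠ 0 := by
    intro h5
    apply hi2
    rw [add_eq_zero_iff_eq_neg, neg_hf hS] at h5
    exact h5
  simp only [if_neg hi, if_neg h4, sub_zero] at h3
  exact h3

theorem ker_pi (s : ℕ) (x : ZMod (2 ^ (s + 1)))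
    (h : (ZMod.castHom (pow_dvd_pow 2 (Nat.le_succ s)) (ZMod (2 ^ s))) x = 0) :
    x = 0 ∨ x = hf (s + 1) := by
  rw [ZMod.castHom_apply, ZMod.cast_eq_val, ZMod.natCast_eq_zero_iff] at h
  obtain ⟨t, ht⟩ := h
  have hlt := ZMod.val_lt x
  have ht2 : t < 2 := by
    by_contra hc
    push Not at hc
    have : 2 ^ s * 2 ≤ 2 ^ s * t := Nat.mul_le_mul_left _ hc
    have h9 : 2 ^ (s + 1) = 2 ^ s * 2 := pow_succ 2 s
    omega
  have hx : x = ((x.val : ℕ) : ZMod (2 ^ (s + 1))) := (ZMod.natCast_zmod_val x).symm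
  rw [hx, ht]
  interval_cases t
  · left; simp
  · right
    unfold hf
    simp

theorem pi_hf (s : ℕ) :
    (ZMod.castHom (pow_dvd_pow 2 (Nat.le_succ s)) (ZMod (2 ^ s))) (hf (s + 1)) = 0 := by
  unfold hf
  rw [map_natCast, ZMod.natCast_eq_zero_iff]
  simp

/-- sum over a fibre -/
theorem fib (s : ℕ) (G : ZMod (2 ^ (s + 1)) → ℤ) (j : ZMod (2 ^ (s + 1))) :
    ∑ j' ∈ univ.filter (fun j' : ZMod (2 ^ (s + 1)) =>
      (ZMod.castHom (pow_dvd_pow 2 (Nat.le_succ s)) (ZMod (2 ^ s))) j' =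
      (ZMod.castHom (pow_dvd_pow 2 (Nat.le_succ s)) (ZMod (2 ^ s))) j), G j' =
    G j + G (j + hf (s + 1)) := by
  have hset : univ.filter (fun j' : ZMod (2 ^ (s + 1)) =>
      (ZMod.castHom (pow_dvd_pow 2 (Nat.le_succ s)) (ZMod (2 ^ s))) j' =
      (ZMod.castHom (pow_dvd_pow 2 (Nat.le_succ s)) (ZMod (2 ^ s))) j) =
      {j, j + hf (s + 1)} := by
    ext x
    rw [Finset.mem_filter, Finset.mem_insert, Finset.mem_singleton]
    constructor
    · rintro ⟨_, hx⟩
      have h1 : (ZMod.castHom (pow_dvd_pow 2 (Nat.le_succ s)) (ZMod (2 ^ s))) (x - j) = 0 := by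
        rw [map_sub, hx, sub_self]
      rcases ker_pi s _ h1 with h2 | h2
      · left; exact sub_eq_zero.mp h2
      · right; rw [← h2]; ring
    · rintro (h2 | h2)
      · rw [h2]; exact ⟨Finset.mem_univ _, rfl⟩
      · rw [h2, map_add, pi_hf, add_zero]; exact ⟨Finset.mem_univ _, rfl⟩
  rw [hset, Finset.sum_pair]
  intro h
  have h1 := hf_ne (S := s + 1) (by omega)
  apply h1
  have : j + 0 = j + hf (s + 1) := by rw [add_zero]; exact h
  exact (add_left_cancel this).symm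

theorem sum_cor (B : W → ℤ) (n : ℤ)
    (h : ∀ g : W, ∑ u, B (u * g) * B u = if g = 1 then n else 0) :
    ∑ u, B u ^ 2 = n ∧ (∑ u, B u) ^ 2 = n := by
  constructor
  · have h1 := h 1
    rw [if_pos rfl] at h1
    rw [← h1]
    refine Finset.sum_congr rfl (fun u _ => ?_)
    rw [mul_one]; ring
  · have h1 : ∑ g : W, ∑ u, B (u * g) * B u = n := by
      rw [Finset.sum_congr rfl (fun g _ => h g)]
      simp
    rw [← h1, Finset.sum_comm, sq, Finset.sum_mul]
    refine Finset.sum_congr rfl (fun u _ => ?_)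
    rw [← Finset.sum_mul]
    have h2 : ∑ g, B (u * g) = ∑ g, B g :=
      Fintype.sum_equiv (Equiv.mulLeft u) _ _ (fun g => rfl)
    rw [h2]
    ring

/-- arithmetic part -/
theorem arith (m0 n k v lam : ℤ) (hm : 2 ≤ m0) (hn : n = m0 ^ 2) (hk : k = lam + n)
    (hk2 : k ^ 2 = lam * v + n) (h1 : 2 * n - m0 ≤ k) (h2 : 2 * n - m0 ≤ v - k) :
    v ≤ 4 * n := by
  have he : 0 < m0 * (m0 - 1) := by nlinarith
  have h3 : 0 ≤ (k - n - (n - m0)) * (v - k - n - (n - m0)) :=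
    mul_nonneg (by linarith) (by linarith)
  have h4 : (k - n) * (v - k - n) = n * (n - 1) := by
    subst hk
    nlinarith
  have h5 : m0 * (m0 - 1) * (v - 2 * n) ≤ m0 * (m0 - 1) * (2 * n) := by
    have e1 : n - m0 = m0 * (m0 - 1) := by rw [hn]; ring
    have e2 : n * (n - 1) = m0 * (m0 - 1) * (n + m0) := by rw [hn]; ring
    rw [e1] at h3
    have e3 : (k - n - m0 * (m0 - 1)) * (v - k - n - m0 * (m0 - 1)) =
        (k - n) * (v - k - n) - m0 * (m0 - 1) * (v - 2 * n) + (m0 * (m0 - 1)) * (m0 * (m0 - 1)) := by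
      ring
    rw [e3, h4, e2] at h3
    have e4 : m0 * (m0 - 1) * (m0 * (m0 - 1)) = m0 * (m0 - 1) * (n - m0) := by rw [e1]
    rw [e4] at h3
    nlinarith
  have h6 := le_of_mul_le_mul_left h5 he
  linarith

/-- level at least two: the second pushforward -/
theorem core (s a : ℕ) (G : ZMod (2 ^ (s + 1)) → W → ℤ) (lam : ℤ) (hs : 1 ≤ s) (ha : 1 ≤ a)
    (h1 : KE2Stmt) (h2 : PSHStmt) (hW : Nat.Coprime 2 (Fintype.card W))
    (h01 : ∀ i u, G i u = 0 ∨ G i u = 1) (hD : DS 2 (s + 1) W G ((2 ^ (2 * a) : ℕ) : ℤ) lam)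
    (hper : ∀ i, i ≠ 0 → i ≠ hf (s + 1) → ∀ u, G (i + hf (s + 1)) u = G i u) : False := by
  set n : ℤ := ((2 ^ (2 * a) : ℕ) : ℤ) with hn
  have hn' : n = ((2 : ℤ) ^ a) ^ 2 := by
    rw [hn]; push_cast; ring
  have hm0 : (2 : ℤ) ≤ 2 ^ a := by
    calc (2 : ℤ) = 2 ^ 1 := by norm_num
      _ ≤ 2 ^ a := pow_le_pow_right₀ (by norm_num) ha
  have hnpos : 0 < n := by rw [hn']; positivity
  have hs1 : 1 ≤ s + 1 := by omega
  -- the values b
  let b : W → ℤ := fun u => G 0 u - G (hf (s + 1)) u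
  have hbc := sum_cor b n (cor_of_per hD (hf (s + 1)) (hf_ne hs1) (hf_add hs1) hper)
  -- pushforward
  let P : ZMod (2 ^ s) → W → ℤ := fun i u =>
    ∑ j ∈ univ.filter (fun j : ZMod (2 ^ (s + 1)) =>
      (ZMod.castHom (pow_dvd_pow 2 (Nat.le_succ s)) (ZMod (2 ^ s))) j = i), G j u
  have hPD : DS 2 s W P n (2 * lam) := h2 s W G n lam hs hD
  have hPval : ∀ (j : ZMod (2 ^ (s + 1))) (u : W),
      P ((ZMod.castHom (pow_dvd_pow 2 (Nat.le_succ s)) (ZMod (2 ^ s))) j) u =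
        G j u + G (j + hf (s + 1)) u := fun j u => fib s (fun j => G j u) j
  have hsurj : ∀ i : ZMod (2 ^ s), ∃ j : ZMod (2 ^ (s + 1)),
      (ZMod.castHom (pow_dvd_pow 2 (Nat.le_succ s)) (ZMod (2 ^ s))) j = i :=
    ZMod.castHom_surjective _
  have hP0 : ∀ u, P 0 u = G 0 u + G (hf (s + 1)) u := by
    intro u
    have := hPval 0 u
    rw [map_zero, zero_add] at this
    exact this
  have hPne : ∀ i : ZMod (2 ^ s), i ≠ 0 → ∃ g : W → ℤ, (∀ u, g u = 0 ∨ g u = 1) ∧
      ∀ u, P i u = 2 * g u := by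
    intro i hi
    obtain ⟨j, hj⟩ := hsurj i
    refine ⟨fun u => G j u, fun u => h01 j u, fun u => ?_⟩
    have h3 := hPval j u
    rw [hj] at h3
    have hj0 : j ≠ 0 := by
      rintro rfl
      rw [map_zero] at hj
      exact hi hj.symm
    have hj1 : j ≠ hf (s + 1) := by
      rintro rfl
      rw [pi_hf] at hj
      exact hi hj.symm
    rw [h3, hper j hj0 hj1]
    ring
  have hPnn : ∀ i u, 0 ≤ P i u ∧ P i u ≤ 2 := by
    intro i u
    obtain ⟨j, hj⟩ := hsurj i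
    have h3 := hPval j u
    rw [hj] at h3
    rw [h3]
    rcases h01 j u with h4 | h4 <;> rcases h01 (j + hf (s + 1)) u with h5 | h5 <;>
      rw [h4, h5] <;> constructor <;> norm_num
  -- eigen relation for P
  obtain ⟨c, hc⟩ := per_of_ke2 h1 (a := a) hs hW hPD
  have hyn := hf_ne hs
  have hya := hf_add hs
  obtain ⟨gy, hgy01, hgy⟩ := hPne (hf s) hyn
  have hcc : c = 0 ∨ c = hf s := by
    by_contra hcon
    push Not at hcon
    have h3 : ∀ u, P (hf s) u = P 0 u := by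
      intro u
      have h4 := hc (-c) (neg_ne_zero.mpr hcon.1) (by
        intro h5
        apply hcon.2
        rw [← neg_hf hs, ← h5, neg_neg]) u
      rw [show -c + hf s + c = hf s by ring, show -c + c = (0 : ZMod (2 ^ s)) by ring] at h4
      exact h4
    have h5 : ∀ u, b u ^ 2 = 0 := by
      intro u
      have h6 := h3 u
      rw [hgy, hP0] at h6
      change (G 0 u - G (hf (s + 1)) u) ^ 2 = 0
      rcases h01 0 u with h7 | h7 <;> rcases h01 (hf (s + 1)) u with h8 | h8 <;>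
        rw [h7, h8] at h6 ⊢ <;> rcases hgy01 u with h9 | h9 <;> rw [h9] at h6 <;> omega
    have h6 := hbc.1
    rw [Finset.sum_congr rfl (fun u _ => h5 u)] at h6
    simp only [Finset.sum_const_zero] at h6
    omega
  have hPper : ∀ i, i ≠ 0 → i ≠ hf s → ∀ u, P (i + hf s) u = P i u := by
    intro i hi0 hi1 u
    rcases hcc with h3 | h3
    · have h4 := hc i hi0 hi1 u
      rw [h3, add_zero, add_zero] at h4
      exact h4
    · have h4 := hc (i + hf s) (by
        intro h5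
        apply hi1
        rw [add_eq_zero_iff_eq_neg, neg_hf hs] at h5
        exact h5) (by
        intro h5
        apply hi0
        simpa using h5) u
      rw [h3] at h4
      rw [show i + hf s + hf s + hf s = i + hf s + (hf s + hf s) by ring, hya, add_zero,
        show i + hf s + hf s = i + (hf s + hf s) by ring, hya, add_zero] at h4
      exact h4
  let B : W → ℤ := fun u => P 0 u - P (hf s) u
  have hBc := sum_cor B n (cor_of_per hPD (hf s) hyn hya hPper)
  -- pointwise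
  have hge : ∀ u ∈ (Finset.univ : Finset W), b u ^ 2 ≤ B u ^ 2 := by
    intro u _
    change (G 0 u - G (hf (s + 1)) u) ^ 2 ≤ (P 0 u - P (hf s) u) ^ 2
    rw [hP0, hgy]
    rcases h01 0 u with h7 | h7 <;> rcases h01 (hf (s + 1)) u with h8 | h8 <;>
      rcases hgy01 u with h9 | h9 <;> rw [h7, h8, h9] <;> norm_num
  have heq : ∀ u, b u ^ 2 = B u ^ 2 := by
    have h3 := (Finset.sum_eq_sum_iff_of_le hge).mp (by rw [hbc.1, hBc.1])
    intro u
    exact h3 u (Finset.mem_univ u)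
  have hlow : ∀ u, b u ^ 2 + B u ^ 2 - B u ≤ P 0 u + P (hf s) u := by
    intro u
    have h3 := heq u
    change (G 0 u - G (hf (s + 1)) u) ^ 2 + (P 0 u - P (hf s) u) ^ 2 - (P 0 u - P (hf s) u) ≤ _
    change (G 0 u - G (hf (s + 1)) u) ^ 2 = (P 0 u - P (hf s) u) ^ 2 at h3
    rw [hP0, hgy] at h3 ⊢
    rcases h01 0 u with h7 | h7 <;> rcases h01 (hf (s + 1)) u with h8 | h8 <;>
      rcases hgy01 u with h9 | h9 <;> rw [h7, h8, h9] at h3 ⊢ <;> omega
  have hupp : ∀ u, b u ^ 2 + B u ^ 2 + B u ≤ (2 - P 0 u) + (2 - P (hf s) u) := by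
    intro u
    have h3 := heq u
    change (G 0 u - G (hf (s + 1)) u) ^ 2 + (P 0 u - P (hf s) u) ^ 2 + (P 0 u - P (hf s) u) ≤ _
    change (G 0 u - G (hf (s + 1)) u) ^ 2 = (P 0 u - P (hf s) u) ^ 2 at h3
    rw [hP0, hgy] at h3 ⊢
    rcases h01 0 u with h7 | h7 <;> rcases h01 (hf (s + 1)) u with h8 | h8 <;>
      rcases hgy01 u with h9 | h9 <;> rw [h7, h8, h9] at h3 ⊢ <;> omega
  -- totals
  set k : ℤ := ∑ i, ∑ u, G i u with hk
  have hkP : ∑ i, ∑ u, P i u = k := by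
    rw [hk]
    have h3 : ∀ i, ∑ u, P i u = ∑ j ∈ univ.filter (fun j : ZMod (2 ^ (s + 1)) =>
        (ZMod.castHom (pow_dvd_pow 2 (Nat.le_succ s)) (ZMod (2 ^ s))) j = i), ∑ u, G j u := by
      intro i
      exact Finset.sum_comm
    rw [Finset.sum_congr rfl (fun i _ => h3 i)]
    exact Finset.sum_fiberwise _ _ _
  set v : ℤ := ((2 ^ (s + 1) * Fintype.card W : ℕ) : ℤ) with hv
  have hvP : ∑ i : ZMod (2 ^ s), ∑ u : W, (2 - P i u) = v - k := by
    rw [← hkP]
    simp only [Finset.sum_sub_distrib]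
    congr 1
    simp only [Finset.sum_const, Finset.card_univ, ZMod.card, nsmul_eq_mul]
    rw [hv]
    push_cast
    ring
  have hsub : ∀ (Q : ZMod (2 ^ s) → ℤ), (∀ i, 0 ≤ Q i) → Q 0 + Q (hf s) ≤ ∑ i, Q i := by
    intro Q hQ
    rw [← Finset.sum_pair (f := Q) (Ne.symm hyn)]
    exact Finset.sum_le_sum_of_subset_of_nonneg (Finset.subset_univ _) (fun i _ _ => hQ i)
  have hkl : 2 * n - ∑ u, B u ≤ k := by
    rw [← hkP]
    refine le_trans ?_ (hsub (fun i => ∑ u, P i u)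
      (fun i => Finset.sum_nonneg (fun u _ => (hPnn i u).1)))
    rw [← Finset.sum_add_distrib]
    have h3 : 2 * n - ∑ u, B u = ∑ u, (b u ^ 2 + B u ^ 2 - B u) := by
      have e1 : ∑ u, (b u ^ 2 + B u ^ 2 - B u) = ∑ u, (b u ^ 2 + B u ^ 2) - ∑ u, B u :=
        Finset.sum_sub_distrib _ _
      have e2 : ∑ u, (b u ^ 2 + B u ^ 2) = ∑ u, b u ^ 2 + ∑ u, B u ^ 2 :=
        Finset.sum_add_distrib
      rw [e1, e2, hbc.1, hBc.1]
      ring
    rw [h3]
    exact Finset.sum_le_sum (fun u _ => hlow u)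
  have hvl : 2 * n + ∑ u, B u ≤ v - k := by
    rw [← hvP]
    refine le_trans ?_ (hsub (fun i => ∑ u, (2 - P i u))
      (fun i => Finset.sum_nonneg (fun u _ => by have := (hPnn i u).2; linarith)))
    rw [← Finset.sum_add_distrib]
    have h3 : 2 * n + ∑ u, B u = ∑ u, (b u ^ 2 + B u ^ 2 + B u) := by
      have e1 : ∑ u, (b u ^ 2 + B u ^ 2 + B u) = ∑ u, (b u ^ 2 + B u ^ 2) + ∑ u, B u :=
        Finset.sum_add_distrib
      have e2 : ∑ u, (b u ^ 2 + B u ^ 2) = ∑ u, b u ^ 2 + ∑ u, B u ^ 2 :=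
        Finset.sum_add_distrib
      rw [e1, e2, hbc.1, hBc.1]
      ring
    rw [h3]
    exact Finset.sum_le_sum (fun u _ => hupp u)
  have hBS : ∑ u, B u = 2 ^ a ∨ ∑ u, B u = -(2 ^ a) := by
    have h3 := hBc.2
    rw [hn'] at h3
    exact sq_eq_sq_iff_eq_or_eq_neg.mp h3
  have hk1 : k = lam + n := by
    have h3 := hD.ac 0 1
    rw [if_pos ⟨rfl, rfl⟩] at h3
    rw [← h3, hk]
    refine Finset.sum_congr rfl (fun i _ => Finset.sum_congr rfl (fun u _ => ?_))
    rw [add_zero, mul_one]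
    rcases h01 i u with h4 | h4 <;> rw [h4] <;> norm_num
  have hk2 : k ^ 2 = lam * v + n := by
    have h3 : ∑ y : ZMod (2 ^ (s + 1)), ∑ h : W, ∑ i, ∑ u, G (i + y) (u * h) * G i u =
        lam * v + n := by
      rw [Finset.sum_congr rfl (fun y _ => Finset.sum_congr rfl (fun h _ => hD.ac y h))]
      simp only [Finset.sum_add_distrib, Finset.sum_const, Finset.card_univ, ZMod.card,
        nsmul_eq_mul]
      have h4 : ∑ x : ZMod (2 ^ (s + 1)), ∑ x_1 : W, (if x = 0 ∧ x_1 = 1 then n else 0) = n := by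
        rw [Finset.sum_eq_single (0 : ZMod (2 ^ (s + 1)))]
        · rw [Finset.sum_eq_single (1 : W)]
          · simp
          · intro h _ hh; simp [hh]
          · simp
        · intro y _ hy
          simp [hy]
        · simp
      rw [h4, hv]
      push_cast
      ring
    rw [← h3]
    have h5 : ∀ (i : ZMod (2 ^ (s + 1))) (u : W),
        ∑ y : ZMod (2 ^ (s + 1)), ∑ h : W, G (i + y) (u * h) * G i u = k * G i u := by
      intro i u
      have h6 : ∑ y : ZMod (2 ^ (s + 1)), ∑ h : W, G (i + y) (u * h) = k := by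
        rw [hk]
        refine Fintype.sum_equiv (Equiv.addLeft i) _ _ (fun y => ?_)
        exact Fintype.sum_equiv (Equiv.mulLeft u) _ _ (fun h => rfl)
      rw [← h6, Finset.sum_mul]
      refine Finset.sum_congr rfl (fun y _ => ?_)
      rw [Finset.sum_mul]
    have h7 : ∑ y : ZMod (2 ^ (s + 1)), ∑ h : W, ∑ i, ∑ u, G (i + y) (u * h) * G i u =
        ∑ i, ∑ u, ∑ y : ZMod (2 ^ (s + 1)), ∑ h : W, G (i + y) (u * h) * G i u := by
      have h8 : ∀ y : ZMod (2 ^ (s + 1)), ∑ h : W, ∑ i, ∑ u, G (i + y) (u * h) * G i u =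
          ∑ i, ∑ u, ∑ h : W, G (i + y) (u * h) * G i u := by
        intro y
        rw [Finset.sum_comm]
        exact Finset.sum_congr rfl (fun i _ => Finset.sum_comm)
      rw [Finset.sum_congr rfl (fun y _ => h8 y), Finset.sum_comm]
      exact Finset.sum_congr rfl (fun i _ => Finset.sum_comm)
    rw [h7, Finset.sum_congr rfl (fun i _ => Finset.sum_congr rfl (fun u _ => h5 i u))]
    simp only [← Finset.mul_sum]
    rw [← hk]
    ring
  have hv4 : v ≤ 4 * n := arith (2 ^ a) n k v lam hm0 hn' hk1 hk2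
    (by rcases hBS with h3 | h3 <;> rw [h3] at hkl <;> linarith)
    (by rcases hBS with h3 | h3 <;> rw [h3] at hvl <;> linarith)
  have hnw : n ≤ (Fintype.card W : ℤ) := by
    rw [← hbc.1]
    calc ∑ u, b u ^ 2 ≤ ∑ u : W, (1 : ℤ) := by
          refine Finset.sum_le_sum (fun u _ => ?_)
          change (G 0 u - G (hf (s + 1)) u) ^ 2 ≤ 1
          rcases h01 0 u with h7 | h7 <;> rcases h01 (hf (s + 1)) u with h8 | h8 <;>
            rw [h7, h8] <;> norm_num
      _ = Fintype.card W := by simp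
  have h4w : 4 * (Fintype.card W : ℤ) ≤ v := by
    rw [hv]
    have h3 : 2 ^ 2 ≤ 2 ^ (s + 1) := Nat.pow_le_pow_right (by norm_num) (by omega)
    have h4 : 4 * Fintype.card W ≤ 2 ^ (s + 1) * Fintype.card W :=
      Nat.mul_le_mul_right _ (by simpa using h3)
    exact_mod_cast h4
  have hw : (Fintype.card W : ℤ) = n := by linarith
  have hw2 : Fintype.card W = 2 ^ (2 * a) := by
    rw [hn] at hw
    exact_mod_cast hw
  rw [hw2] at hW
  have h5 : 2 ∣ 2 ^ (2 * a) := dvd_pow_self 2 (by omega)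
  have h6 := Nat.Coprime.eq_one_of_dvd hW h5
  norm_num at h6

end TWO

theorem two (h1 : KE2Stmt) (h2 : PSHStmt) : TWOStmt := by
  intro s a W _ _ _ f lam hs ha hW h01 hD
  obtain ⟨c, hc⟩ := TWO.per_of_ke2 h1 (a := a) (by omega : 1 ≤ s + 1) hW hD
  exact TWO.core s a (fun i u => f (i + c) u) lam hs ha h1 h2 hW (fun i u => h01 _ u)
    (TWO.ds_shift hD c) hc

end LAN
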